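import Mathlib
import Pool.Agent.Q81.JN.Stm
import Pool.Agent.H712R2.Par

set_option autoImplicit false

/-! Project JN, job SH: sharpness. -/

namespace Pool.Agent.Q110.JN

open Pool.Agent.Q81.JN
open Complex Metric Set

theorem mm_cont (A B : ℝ) (h : Par A B) : ContinuousAt (mm A B) 1 := by
  by_cases hB : B = 0
  · have : mm A B = fun r => Real.exp (-A * r) := by
      funext r; simp [mm, hB]
    rw [this]
    fun_prop
  · have : mm A B = fun r => (1 - B * r) ^ ((A - B) / B) := by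
      funext r; simp [mm, hB]
    rw [this]
    have h1 : (1 - B * 1 : ℝ) ≠ 0 := by
      have := h.hAB; have := h.hA; linarith
    exact ContinuousAt.rpow_const (by fun_prop) (Or.inl (by simpa using h1))

theorem mm_one (A B : ℝ) : mm A B 1 = delta A B := by
  by_cases hB : B = 0 <;> simp [mm, delta, hB]

theorem exists_r (A B δ' : ℝ) (h : Par A B) (hd : delta A B < δ') :
    ∃ r : ℝ, 0 < r ∧ r < 1 ∧ mm A B r / r < δ' := by
  have hc : ContinuousAt (fun r => mm A B r / r) 1 :=
    (mm_cont A B h).div continuousAt_id one_ne_zero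
  have h1 : (fun r => mm A B r / r) 1 < δ' := by
    show mm A B 1 / 1 < δ'
    rw [mm_one, div_one]; exact hd
  have h2 : ∀ᶠ r in nhds (1 : ℝ), mm A B r / r < δ' := hc.eventually_lt continuousAt_const h1
  have h3 : ∀ᶠ r in nhdsWithin (1 : ℝ) (Iio 1), mm A B r / r < δ' ∧ r ∈ Ioo (0 : ℝ) 1 :=
    (h2.filter_mono nhdsWithin_le_nhds).and (Ioo_mem_nhdsLT one_pos)
  obtain ⟨r, hr1, hr2⟩ := h3.exists
  exact ⟨r, hr2.1, hr2.2, hr1⟩

theorem coef_sub (k : ℂ → ℂ) (hk : InA k) (c : ℂ) (n : ℕ) :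
    coef k n - coef (fun z => k z + c * z ^ 2) n = if n = 2 then -c else 0 := by
  have h0 : (0 : ℂ) ∈ ball (0 : ℂ) 1 := mem_ball_self one_pos
  have ha : AnalyticAt ℂ k 0 := hk.diff.analyticAt (isOpen_ball.mem_nhds h0)
  have hkc : ContDiffAt ℂ n k 0 := ha.contDiffAt
  have h2 : ContDiffAt ℂ n (fun z : ℂ => c * z ^ 2) 0 := by fun_prop
  have h3 : iteratedDeriv n (fun z => k z + c * z ^ 2) 0 =
      iteratedDeriv n k 0 + iteratedDeriv n (fun z : ℂ => c * z ^ 2) 0 :=
    iteratedDeriv_fun_add hkc h2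
  have h4 : iteratedDeriv n (fun z : ℂ => c * z ^ 2) 0 = if n = 2 then 2 * c else 0 := by
    rw [iteratedDeriv_const_mul_field, iteratedDeriv_fun_pow_zero]
    by_cases hn : n = 2
    · subst hn
      simp
      ring
    · simp [hn]
  unfold coef
  rw [h3, h4]
  by_cases hn : n = 2
  · subst hn
    simp
    ring
  · simp [hn]

theorem sh : S_SH := by
  intro A B δ' k hp hk hm hd
  obtain ⟨r, hr0, hr1, hr⟩ := exists_r A B δ' hp hd
  have h0 : (0 : ℂ) ∈ ball (0 : ℂ) 1 := mem_ball_self one_pos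
  have hkd : ∀ z ∈ ball (0 : ℂ) 1, HasDerivAt k (deriv k z) z := fun z hz =>
    (hk.diff.differentiableAt (isOpen_ball.mem_nhds hz)).hasDerivAt
  set c : ℂ := ((mm A B r / (2 * r) : ℝ) : ℂ) with hc
  have hgd : ∀ z ∈ ball (0 : ℂ) 1,
      HasDerivAt (fun z => k z + c * z ^ 2) (deriv k z + c * (2 * z)) z := by
    intro z hz
    have h1 := (hkd z hz).add (((hasDerivAt_id' z).pow 2).const_mul c)
    refine h1.congr_deriv ?_
    simp
  have hgA : InA (fun z => k z + c * z ^ 2) := by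
    refine ⟨fun z hz => (hgd z hz).differentiableAt.differentiableWithinAt, ?_, ?_⟩
    · simp [hk.map_zero]
    · rw [(hgd 0 h0).deriv, hk.deriv_zero]; simp
  have hmr0 : 0 ≤ mm A B r := by
    unfold mm
    split_ifs
    · exact (Real.exp_pos _).le
    · apply Real.rpow_nonneg
      have h1 := hp.hAB; have h2 := hp.hA; have h3 := hp.hB
      nlinarith [mul_nonneg hr0.le (sub_nonneg.mpr (h1.le.trans h2))]
  refine ⟨fun z => k z + c * z ^ 2, ⟨hgA, ?_⟩, ?_⟩
  · intro N
    have h1 : ∀ n ∈ Finset.Icc 2 N, (n : ℝ) * ‖coef k n - coef (fun z => k z + c * z ^ 2) n‖ =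
        if n = 2 then 2 * ‖c‖ else 0 := by
      intro n _
      rw [coef_sub k hk c n]
      by_cases hn : n = 2
      · subst hn; simp
      · simp [hn]
    rw [Finset.sum_congr rfl h1, Finset.sum_ite_eq']
    have hcn : 2 * ‖c‖ = mm A B r / r := by
      rw [hc, Complex.norm_real, Real.norm_of_nonneg (by positivity)]
      field_simp
    have hpos : 0 ≤ mm A B r / r := by positivity
    split_ifs
    · rw [hcn]; exact hr.le
    · linarith
  · intro hst
    have hmem : (-(r : ℂ)) ∈ ball (0 : ℂ) 1 := by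
      rw [mem_ball_zero_iff, norm_neg, Complex.norm_real, Real.norm_of_nonneg hr0.le]
      exact hr1
    have hne := Pool.Agent.H712R2.M.deriv_ne_zero_of_injOn' isOpen_ball hst.inA.diff hst.inj hmem
    apply hne
    rw [(hgd _ hmem).deriv, hm r ⟨hr0.le, hr1⟩, hc]
    have hrc : (r : ℂ) ≠ 0 := by exact_mod_cast hr0.ne'
    push_cast
    field_simp
    ring

end Pool.Agent.Q110.JN
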