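import Mathlib
import Pool.Agent.Q81.JN.Stm
import Pool.Agent.H712R2.Par
import Pool.Agent.Helper968.Schild.Starlike

set_option autoImplicit false

/-! Project JN, job ST: a criterion for starlikeness. -/

namespace Pool.Agent.Q110.JN

open Pool.Agent.Q81.JN
open Complex Metric Set

theorem st : S_ST := by
  intro g hg hz
  have h0m : (0 : ℂ) ∈ ball (0 : ℂ) 1 := mem_ball_self one_pos
  have hGd : DifferentiableOn ℂ (dslope g 0) (ball (0 : ℂ) 1) :=
    (Complex.differentiableOn_dslope (isOpen_ball.mem_nhds h0m)).mpr hg.diff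
  have hG0 : dslope g 0 0 = 1 := by rw [dslope_same, hg.deriv_zero]
  have hgz : ∀ z, z * dslope g 0 z = g z := by
    intro z
    have := sub_smul_dslope g 0 z
    simpa [hg.map_zero] using this
  have hGne : ∀ z ∈ ball (0 : ℂ) 1, dslope g 0 z ≠ 0 := by
    intro z hz1 h0
    rcases eq_or_ne z 0 with rfl | hne
    · rw [hG0] at h0; exact one_ne_zero h0
    · apply (hz z hz1 hne).1
      rw [← hgz z, h0, mul_zero]
  obtain ⟨h, hhd, hh0, hhe⟩ := Pool.Agent.H712R2.M.exists_log_ball one_pos hGd hGne 0
    (by rw [Complex.exp_zero, hG0])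
  have hge : ∀ z ∈ ball (0 : ℂ) 1, g z = z * Complex.exp (h z) := fun z hz1 => by
    rw [hhe z hz1, hgz]
  have hder : ∀ z ∈ ball (0 : ℂ) 1, deriv g z = Complex.exp (h z) * (1 + z * deriv h z) := by
    intro z hz1
    have h1 := Pool.Agent.Helper968.Schild.starlike_aux_hasDeriv hhd z hz1
    have h2 : g =ᶠ[nhds z] fun z => z * Complex.exp (h z) := by
      filter_upwards [isOpen_ball.mem_nhds hz1] with w hw
      exact hge w hw
    rw [h2.deriv_eq]
    exact h1.deriv
  have hP : ∀ z ∈ ball (0 : ℂ) 1, (1 + z * deriv h z).re ≠ 0 := by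
    intro z hz1 h0
    rcases eq_or_ne z 0 with rfl | hne
    · simp at h0
    · apply (hz z hz1 hne).2 (1 + z * deriv h z).im
      have hPI : 1 + z * deriv h z = I * ((1 + z * deriv h z).im : ℂ) := by
        apply Complex.ext
        · rw [h0]; simp
        · simp
      have h3 : z * deriv g z - I * ((1 + z * deriv h z).im : ℂ) * g z =
          z * Complex.exp (h z) * ((1 + z * deriv h z) - I * ((1 + z * deriv h z).im : ℂ)) := by
        rw [hder z hz1, hge z hz1]; ring
      rw [h3, ← hPI, sub_self, mul_zero]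
  have hcont : ContinuousOn (fun z => (1 + z * deriv h z).re) (ball (0 : ℂ) 1) := by
    have hc : ContinuousOn (deriv h) (ball (0 : ℂ) 1) := (hhd.deriv isOpen_ball).continuousOn
    exact Complex.continuous_re.comp_continuousOn
      (continuousOn_const.add (continuousOn_id.mul hc))
  have hpos : ∀ z ∈ ball (0 : ℂ) 1, 0 < (1 + z * deriv h z).re := by
    intro z hz1
    by_contra hle
    rw [not_lt] at hle
    obtain ⟨w, hw, hw0⟩ := (convex_ball (0 : ℂ) 1).isPreconnected.intermediate_value hz1 h0m
      hcont (show (0 : ℝ) ∈ Icc _ _ from ⟨hle, by simp⟩)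
    exact hP w hw hw0
  obtain ⟨hi, hs⟩ := Pool.Agent.Helper968.Schild.starlike_of_pos hhd hpos
  refine ⟨hg, ?_, ?_⟩
  · intro x hx y hy hxy
    refine hi hx hy ?_
    show x * Complex.exp (h x) = y * Complex.exp (h y)
    rw [← hge x hx, ← hge y hy]
    exact hxy
  · have him : g '' ball 0 1 = (fun z => z * Complex.exp (h z)) '' ball 0 1 :=
      Set.image_congr (fun z hz1 => hge z hz1)
    rw [him]
    exact hs

end Pool.Agent.Q110.JN
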